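import Mathlib
import Pool.Agent.V11117.Spec

namespace Pool.Agent.Results.MP_4a987e_co.SpiderCounterexample

open Finset Matrix Pool.Agent.V11117.Spec

/-- The real adjacency matrix of a graph is Hermitian. -/
lemma herm {V : Type*} [Fintype V] [DecidableEq V] (G : SimpleGraph V)
    [DecidableRel G.Adj] : (G.adjMatrix ℝ).IsHermitian := by
  rw [Matrix.IsHermitian, Matrix.conjTranspose_eq_transpose_of_trivial]
  exact G.isSymm_adjMatrix

/-- The energy of a finite simple graph: the sum of the absolute values of the eigenvalues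
(with multiplicity) of its real adjacency matrix. -/
noncomputable def energy {V : Type*} [Fintype V] [DecidableEq V] (G : SimpleGraph V)
    [DecidableRel G.Adj] : ℝ :=
  ∑ i, |(herm G).eigenvalues i|

/-- The spectral radius `lambda1` of a finite simple graph: the largest eigenvalue of its
real adjacency matrix. -/
noncomputable def lambda1 {V : Type*} [Fintype V] [DecidableEq V] (G : SimpleGraph V)
    [DecidableRel G.Adj] : ℝ :=
  ⨆ i, (herm G).eigenvalues i

/-- The spider with five legs of length two: the centre `0` is joined to `1, ..., 5`, and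
`i` is joined to `i + 5` for `i = 1, ..., 5`. -/
def spider : SimpleGraph (Fin 11) where
  Adj i j := (i.val = 0 ∧ 1 ≤ j.val ∧ j.val ≤ 5) ∨ (j.val = 0 ∧ 1 ≤ i.val ∧ i.val ≤ 5) ∨
    (1 ≤ i.val ∧ j.val = i.val + 5) ∨ (1 ≤ j.val ∧ i.val = j.val + 5)
  symm := ⟨fun i j h => by omega⟩
  loopless := ⟨fun i h => by omega⟩

instance : DecidableRel spider.Adj := fun i j => by
  unfold spider
  infer_instance

lemma sq_int : ∀ i j, (spider.adjMatrix ℤ ^ 5) i j - 7 * (spider.adjMatrix ℤ ^ 3) i j
    + 6 * (spider.adjMatrix ℤ) i j = 0 := by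
  have h : ∀ i j, (spider.adjMatrix ℤ * ((spider.adjMatrix ℤ * spider.adjMatrix ℤ) *
      (spider.adjMatrix ℤ * spider.adjMatrix ℤ))) i j
      - 7 * (spider.adjMatrix ℤ * (spider.adjMatrix ℤ * spider.adjMatrix ℤ)) i j
      + 6 * spider.adjMatrix ℤ i j = 0 := by
    decide +kernel
  intro i j
  have e5 : spider.adjMatrix ℤ ^ 5 = spider.adjMatrix ℤ * ((spider.adjMatrix ℤ * spider.adjMatrix ℤ) *
      (spider.adjMatrix ℤ * spider.adjMatrix ℤ)) := by
    simp only [pow_succ, pow_zero, Matrix.one_mul, Matrix.mul_assoc]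
  have e3 : spider.adjMatrix ℤ ^ 3 = spider.adjMatrix ℤ * (spider.adjMatrix ℤ * spider.adjMatrix ℤ) := by
    simp only [pow_succ, pow_zero, Matrix.one_mul, Matrix.mul_assoc]
  rw [e5, e3]
  exact h i j

lemma tr2_int : (spider.adjMatrix ℤ ^ 2).trace = 20 := by
  rw [pow_two]
  decide +kernel

lemma tr4_int : (spider.adjMatrix ℤ ^ 4).trace = 80 := by
  have e : spider.adjMatrix ℤ ^ 4 = (spider.adjMatrix ℤ * spider.adjMatrix ℤ) *
      (spider.adjMatrix ℤ * spider.adjMatrix ℤ) := by
    simp only [pow_succ, pow_zero, Matrix.one_mul, Matrix.mul_assoc]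
  rw [e]
  decide +kernel

lemma map_adj : spider.adjMatrix ℝ = (spider.adjMatrix ℤ).map (Int.castRingHom ℝ) := by
  ext i j
  simp only [SimpleGraph.adjMatrix_apply, Matrix.map_apply]
  split_ifs <;> simp

lemma map_pow (k : ℕ) : spider.adjMatrix ℝ ^ k
    = (spider.adjMatrix ℤ ^ k).map (Int.castRingHom ℝ) := by
  rw [map_adj]
  exact ((Int.castRingHom ℝ).mapMatrix.map_pow (spider.adjMatrix ℤ) k).symm

lemma trace_map (k : ℕ) : (spider.adjMatrix ℝ ^ k).trace
    = (((spider.adjMatrix ℤ ^ k).trace : ℤ) : ℝ) := by
  rw [map_pow, Matrix.trace, Matrix.trace]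
  push_cast
  rfl

lemma poly_real : spider.adjMatrix ℝ ^ 5 - (7 : ℝ) • spider.adjMatrix ℝ ^ 3
    + (6 : ℝ) • spider.adjMatrix ℝ ^ 1 = 0 := by
  ext i j
  have h := sq_int i j
  rw [map_pow, map_pow, map_pow, pow_one]
  simp only [Matrix.add_apply, Matrix.sub_apply, Matrix.smul_apply, Matrix.map_apply,
    Matrix.zero_apply, smul_eq_mul, Int.coe_castRingHom]
  exact_mod_cast h

lemma eig_poly (i : Fin 11) : (herm spider).eigenvalues i ^ 5
    - 7 * (herm spider).eigenvalues i ^ 3 + 6 * (herm spider).eigenvalues i = 0 := by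
  obtain ⟨y, hy, h⟩ := exists_vec (herm spider) i
  have h5 := pow_mulVec h 5
  have h3 := pow_mulVec h 3
  have h1 := pow_mulVec h 1
  have h0 : (spider.adjMatrix ℝ ^ 5 - (7 : ℝ) • spider.adjMatrix ℝ ^ 3
    + (6 : ℝ) • spider.adjMatrix ℝ ^ 1) *ᵥ y = 0 := by
    rw [poly_real, Matrix.zero_mulVec]
  rw [Matrix.add_mulVec, Matrix.sub_mulVec, Matrix.smul_mulVec, Matrix.smul_mulVec,
    h5, h3, h1, smul_smul, smul_smul, ← sub_smul, ← add_smul, smul_eq_zero] at h0
  rcases h0 with h0 | h0
  · rw [← h0]; ring
  · exact absurd h0 hy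

/-- **Disproof of the bound `E ≤ 2m / √λ₁`.** -/
theorem result : ∃ (n : ℕ) (G : SimpleGraph (Fin n)) (_ : DecidableRel G.Adj),
    G.Connected ∧ 1 ≤ G.edgeFinset.card ∧
      2 * (G.edgeFinset.card : ℝ) / √(lambda1 G) < energy G := by
  refine ⟨11, spider, inferInstance, ?_, ?_, ?_⟩
  · rw [SimpleGraph.connected_iff_exists_forall_reachable]
    have h1 : ∀ i : Fin 11, 1 ≤ i.val → i.val ≤ 5 → spider.Reachable 0 i := fun i h h' =>
      SimpleGraph.Adj.reachable (show spider.Adj 0 i from Or.inl ⟨rfl, h, h'⟩)
    refine ⟨0, fun w => ?_⟩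
    by_cases h0 : w.val = 0
    · have : w = 0 := Fin.ext h0
      rw [this]
    · by_cases h5 : w.val ≤ 5
      · exact h1 w (by omega) h5
      · have hw := w.isLt
        have hlt : w.val - 5 < 11 := by omega
        have hr := h1 ⟨w.val - 5, hlt⟩ (by simp; omega) (by simp; omega)
        refine hr.trans (SimpleGraph.Adj.reachable ?_)
        refine Or.inr (Or.inr (Or.inl ⟨?_, ?_⟩))
        · simp; omega
        · simp; omega
  · have : spider.edgeFinset.card = 10 := by decide +kernel
    omega
  · have hm : spider.edgeFinset.card = 10 := by decide +kernel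
    rw [hm]
    set r := √(6 : ℝ) with hr
    have hr2 : r ^ 2 = 6 := Real.sq_sqrt (by norm_num)
    have hr0 : 0 < r := Real.sqrt_pos.mpr (by norm_num)
    have hrlo : 2.4 < r := by nlinarith
    -- the energy
    have hE : energy spider = 8 + 2 * r := by
      have h2 := trace_pow (herm spider) 2
      have h4 := trace_pow (herm spider) 4
      rw [trace_map, tr2_int] at h2
      rw [trace_map, tr4_int] at h4
      have habs : ∀ i, |(herm spider).eigenvalues i|
          = (1 - (r - 6) / 30) * (herm spider).eigenvalues i ^ 2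
            + (r - 6) / 30 * (herm spider).eigenvalues i ^ 4 := by
        intro i
        have hp := eig_poly i
        set x := (herm spider).eigenvalues i
        have hf : x * ((x - 1) * (x + 1)) * ((x - r) * (x + r)) = 0 := by
          rw [← hp]
          have : (x - r) * (x + r) = x ^ 2 - 6 := by rw [← hr2]; ring
          rw [this]
          ring
        have key : ∀ t : ℝ, 0 ≤ t → (t = 0 ∨ t = 1 ∨ t = r) →
            t = (1 - (r - 6) / 30) * t ^ 2 + (r - 6) / 30 * t ^ 4 := by
          intro t _ ht
          rcases ht with rfl | rfl | rfl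
          · ring
          · ring
          · have h4' : r ^ 4 = 36 := by
              calc r ^ 4 = (r ^ 2) ^ 2 := by ring
                _ = 36 := by rw [hr2]; norm_num
            rw [h4', hr2]
            ring
        have hab : |x| = 0 ∨ |x| = 1 ∨ |x| = r := by
          rcases mul_eq_zero.mp hf with h | h
          · rcases mul_eq_zero.mp h with h | h
            · left; rw [h, abs_zero]
            · rcases mul_eq_zero.mp h with h | h
              · right; left
                rw [show x = 1 by linarith, abs_one]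
              · right; left
                rw [show x = -1 by linarith, abs_neg, abs_one]
          · rcases mul_eq_zero.mp h with h | h
            · right; right
              rw [show x = r by linarith, abs_of_pos hr0]
            · right; right
              rw [show x = -r by linarith, abs_neg, abs_of_pos hr0]
        have := key |x| (abs_nonneg x) hab
        rw [this, sq_abs]
        have h44 : |x| ^ 4 = x ^ 4 := by
          calc |x| ^ 4 = (|x| ^ 2) ^ 2 := by ring
            _ = x ^ 4 := by rw [sq_abs]; ring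
        rw [h44]
      rw [energy, Finset.sum_congr rfl (fun i _ => habs i), Finset.sum_add_distrib,
        ← Finset.mul_sum, ← Finset.mul_sum, ← h2, ← h4]
      push_cast
      ring
    -- the spectral radius
    have hl : r ≤ lambda1 spider := by
      obtain ⟨i, hi⟩ : ∃ i, (herm spider).eigenvalues i = r := by
        have hy : (fun i : Fin 11 => if i.val = 0 then 5 else if i.val ≤ 5 then r else 1)
            ≠ (0 : Fin 11 → ℝ) := by
          intro h
          have := congrFun h 0
          simp at this
        refine exists_index (herm spider) hy ?_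
        funext i
        rw [Matrix.mulVec, dotProduct]
        simp only [SimpleGraph.adjMatrix_apply, spider, Pi.smul_apply, smul_eq_mul]
        fin_cases i <;> simp [Fin.sum_univ_succ] <;> nlinarith
      rw [lambda1, ← hi]
      exact le_ciSup (Set.finite_range _).bddAbove i
    have hs : √r ≤ √(lambda1 spider) := Real.sqrt_le_sqrt hl
    have hs0 : 0 < √r := Real.sqrt_pos.mpr hr0
    have hs2 : √r ^ 2 = r := Real.sq_sqrt hr0.le
    rw [hE]
    calc 2 * ((10 : ℕ) : ℝ) / √(lambda1 spider) ≤ 2 * ((10 : ℕ) : ℝ) / √r :=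
          div_le_div_of_nonneg_left (by norm_num) hs0 hs
      _ < 8 + 2 * r := by
          rw [div_lt_iff₀ hs0]
          have h1 : (0:ℝ) < (8 + 2 * r) * √r := by positivity
          have h2 : (2 * ((10 : ℕ) : ℝ)) ^ 2 < ((8 + 2 * r) * √r) ^ 2 := by
            have h3 : ((8 + 2 * r) * √r) ^ 2 = (8 + 2 * r) ^ 2 * r := by
              rw [mul_pow, hs2]
            rw [h3]
            push_cast
            nlinarith
          exact lt_of_pow_lt_pow_left₀ 2 h1.le h2

end Pool.Agent.Results.MP_4a987e_co.SpiderCounterexample
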